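import Pool.Agent.Y148.OD.Stm3

/-! # Project OD, job OD-13: resultants -/

set_option autoImplicit false

namespace Pool.Agent.Y434.OD.Res

open Pool.Agent.Y148.OD Polynomial

/-- degree of a determinant with column bounds -/
theorem natDegree_det_le {R : Type*} [CommRing R] {n : ℕ} (M : Matrix (Fin n) (Fin n) R[X])
    (w : Fin n → ℕ) (h : ∀ i j, (M i j).natDegree ≤ w j) : M.det.natDegree ≤ ∑ j, w j := by
  rw [Matrix.det_apply]
  refine natDegree_sum_le_of_forall_le _ _ fun σ _ => ?_
  have h1 : (∏ i, M (σ i) i).natDegree ≤ ∑ j, w j :=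
    (natDegree_prod_le _ _).trans (Finset.sum_le_sum fun j _ => h (σ j) j)
  rcases Int.units_eq_one_or (Equiv.Perm.sign σ) with h2 | h2
  · rw [h2, one_smul]; exact h1
  · rw [h2, Units.neg_smul, one_smul, natDegree_neg]; exact h1

/-- all coefficients are homogeneous -/
def Hg {ι R : Type*} [CommRing R] (e : ℕ) (p : (MvPolynomial ι R)[X]) : Prop :=
  ∀ n, (p.coeff n).IsHomogeneous e

theorem Hg.mul {ι R : Type*} [CommRing R] {e e' : ℕ} {p q : (MvPolynomial ι R)[X]} (hp : Hg e p)
    (hq : Hg e' q) : Hg (e + e') (p * q) := by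
  intro n
  rw [coeff_mul]
  exact MvPolynomial.IsHomogeneous.sum _ _ _ fun x _ => (hp _).mul (hq _)

theorem Hg.one {ι R : Type*} [CommRing R] : Hg 0 (1 : (MvPolynomial ι R)[X]) := by
  intro n
  rw [coeff_one]
  split_ifs
  · exact MvPolynomial.isHomogeneous_one _ _
  · exact MvPolynomial.isHomogeneous_zero _ _ _

theorem Hg.zero {ι R : Type*} [CommRing R] (e : ℕ) : Hg e (0 : (MvPolynomial ι R)[X]) := by
  intro n
  rw [coeff_zero]
  exact MvPolynomial.isHomogeneous_zero _ _ _

theorem Hg.prod {ι R κ : Type*} [CommRing R] (s : Finset κ) (w : κ → ℕ)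
    (p : κ → (MvPolynomial ι R)[X]) (h : ∀ j ∈ s, Hg (w j) (p j)) :
    Hg (∑ j ∈ s, w j) (∏ j ∈ s, p j) := by
  classical
  induction s using Finset.induction_on with
  | empty => simpa using Hg.one
  | insert a s ha ih =>
    rw [Finset.sum_insert ha, Finset.prod_insert ha]
    exact (h a (Finset.mem_insert_self _ _)).mul (ih fun j hj => h j (Finset.mem_insert_of_mem hj))

theorem Hg_det {ι R : Type*} [CommRing R] {n : ℕ}
    (M : Matrix (Fin n) (Fin n) (MvPolynomial ι R)[X])
    (w : Fin n → ℕ) (h : ∀ i j, Hg (w j) (M i j)) : Hg (∑ j, w j) M.det := by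
  intro m
  rw [Matrix.det_apply, finsetSum_coeff]
  refine MvPolynomial.IsHomogeneous.sum _ _ _ fun σ _ => ?_
  have h1 := Hg.prod Finset.univ w (fun i => M (σ i) i) (fun j _ => h (σ j) j)
  rcases Int.units_eq_one_or (Equiv.Perm.sign σ) with h2 | h2
  · rw [h2, one_smul]; exact h1 m
  · rw [h2, Units.neg_smul, one_smul, coeff_neg]; exact (h1 m).neg

section

variable {A : Type*} [CommRing A]

/-- the polynomial with given coefficients -/
noncomputable def GG (D d : ℕ) (g : Fin (D + 1) × Fin d → A) : A[X][X] :=
  ∑ q, monomial (q.2 : ℕ) (monomial (q.1 : ℕ) (g q))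

theorem GG_deg (D d : ℕ) (g : Fin (D + 1) × Fin d → A) : (GG D d g).natDegree ≤ d - 1 := by
  unfold GG
  refine natDegree_sum_le_of_forall_le _ _ fun q _ => ?_
  refine (natDegree_monomial_le _).trans ?_
  have := q.2.2
  omega

theorem GG_coeff (D d : ℕ) (g : Fin (D + 1) × Fin d → A) (b : ℕ) : (GG D d g).coeff b =
    ∑ q : Fin (D + 1) × Fin d, if (q.2 : ℕ) = b then monomial (q.1 : ℕ) (g q) else 0 := by
  unfold GG
  rw [finsetSum_coeff]
  refine Finset.sum_congr rfl fun q _ => ?_
  rw [coeff_monomial]

theorem GG_coeff_deg (D d : ℕ) (g : Fin (D + 1) × Fin d → A) (b : ℕ) :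
    ((GG D d g).coeff b).natDegree ≤ D := by
  rw [GG_coeff]
  refine natDegree_sum_le_of_forall_le _ _ fun q _ => ?_
  split_ifs
  · refine (natDegree_monomial_le _).trans ?_
    have := q.1.2
    omega
  · simp

theorem GG_map {B : Type*} [CommRing B] (φ : A →+* B) (D d : ℕ) (g : Fin (D + 1) × Fin d → A) :
    (GG D d g).map (mapRingHom φ) = GG D d (fun q => φ (g q)) := by
  unfold GG
  rw [Polynomial.map_sum]
  refine Finset.sum_congr rfl fun q _ => ?_
  rw [map_monomial, coe_mapRingHom, map_monomial]

theorem GG_eval (D d : ℕ) (g : Fin (D + 1) × Fin d → A) (x y : A) :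
    (GG D d g).evalEval x y = ∑ q, g q * x ^ (q.1 : ℕ) * y ^ (q.2 : ℕ) := by
  unfold GG
  unfold evalEval
  rw [eval_finsetSum, eval_finsetSum]
  refine Finset.sum_congr rfl fun q _ => ?_
  rw [eval_monomial, eval_mul, eval_monomial, eval_pow, eval_C]

theorem res_map {B : Type*} [CommRing B] (φ : A →+* B) (F G : A[X][X]) (m n : ℕ) :
    (mapRingHom φ) (resultant F G m n) =
      resultant (F.map (mapRingHom φ)) (G.map (mapRingHom φ)) m n :=
  (resultant_map_map (R := A[X]) (S := B[X]) F G m n (mapRingHom φ)).symm

/-- column bounds -/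
theorem sum_cols (m n a b : ℕ) :
    ∑ j : Fin (m + n), (Fin.addCases (motive := fun _ => ℕ) (fun _ => a) (fun _ => b) j) =
      m * a + n * b := by
  rw [Fin.sum_univ_add]
  simp

end

/-- OD-13 -/
theorem stmRes : StmRes := by
  classical
  intro Ω _ k f d δ D hd hd1 hδ g hg
  obtain ⟨fO, hfO⟩ : ∃ fO, fO = f.map (mapRingHom (algebraMap k Ω)) := ⟨_, rfl⟩
  rw [← hfO]
  have hfd : fO.natDegree ≤ d := by rw [hfO, ← hd]; exact natDegree_map_le
  obtain ⟨R, hR⟩ : ∃ R, R = resultant fO (GG D d g) d (d - 1) := ⟨_, rfl⟩
  -- the degree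
  have hdeg : R.natDegree ≤ d * D + (d - 1) * δ := by
    rw [hR, ← sum_cols]
    refine natDegree_det_le _ _ fun i j => ?_
    induction j using Fin.addCases with
    | left j =>
      rw [Fin.addCases_left]
      simp only [sylvester, Matrix.of_apply, Fin.addCases_left]
      split_ifs
      · exact GG_coeff_deg _ _ _ _
      · simp
    | right j =>
      rw [Fin.addCases_right]
      simp only [sylvester, Matrix.of_apply, Fin.addCases_right]
      split_ifs
      · rw [hfO, coeff_map]
        exact natDegree_map_le.trans (hδ _)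
      · simp
  -- common roots
  have hroot : ∀ x₀ y₀ : Ω, fO.evalEval x₀ y₀ = 0 →
      ∑ q, g q * x₀ ^ (q.1 : ℕ) * y₀ ^ (q.2 : ℕ) = 0 → R.eval x₀ = 0 := by
    intro x₀ y₀ h1 h2
    obtain ⟨p, q, -, -, h3⟩ := exists_mul_add_mul_eq_C_resultant fO (GG D d g) hfd
      (GG_deg D d g) (Or.inl (by omega))
    have h4 := congrArg (fun r => evalEval x₀ y₀ r) h3
    simp only [evalEval_add, evalEval_mul, h1, GG_eval, h2, zero_mul, add_zero] at h4
    rw [evalEval_C] at h4
    rw [hR]
    exact h4.symm
  -- the generic resultant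
  have hne : R ≠ 0 := by
    obtain ⟨RA, hRA⟩ : ∃ RA : (MvPolynomial (Fin (D + 1) × Fin d) k)[X], RA =
      resultant (f.map (mapRingHom MvPolynomial.C)) (GG D d MvPolynomial.X) d (d - 1) := ⟨_, rfl⟩
    have hom : Hg d RA := by
      have e : ∑ j : Fin (d + (d - 1)),
          (Fin.addCases (motive := fun _ => ℕ) (fun _ => 1) (fun _ => 0) j) = d := by
        rw [sum_cols]; omega
      have e2 := Hg_det (sylvester (f.map (mapRingHom (MvPolynomial.C (σ := Fin (D + 1) × Fin d))))
        (GG D d MvPolynomial.X) d (d - 1))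
        (Fin.addCases (motive := fun _ => ℕ) (fun _ => 1) (fun _ => 0)) (fun i j => by
          induction j using Fin.addCases with
          | left j =>
            rw [Fin.addCases_left]
            simp only [sylvester, Matrix.of_apply, Fin.addCases_left]
            split_ifs
            · intro n
              rw [GG_coeff, finsetSum_coeff]
              refine MvPolynomial.IsHomogeneous.sum _ _ _ fun q _ => ?_
              split_ifs
              · rw [coeff_monomial]
                split_ifs
                · exact MvPolynomial.isHomogeneous_X _ _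
                · exact MvPolynomial.isHomogeneous_zero _ _ _
              · rw [coeff_zero]
                exact MvPolynomial.isHomogeneous_zero _ _ _
            · exact Hg.zero _
          | right j =>
            rw [Fin.addCases_right]
            simp only [sylvester, Matrix.of_apply, Fin.addCases_right]
            split_ifs
            · intro n
              rw [coeff_map, coe_mapRingHom, coeff_map]
              exact MvPolynomial.isHomogeneous_C _ _
            · exact Hg.zero _)
      rw [e] at e2
      rw [hRA]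
      exact e2
    have hRA0 : RA ≠ 0 := by
      intro h0
      obtain ⟨t, ht⟩ : ∃ t : Fin (D + 1) × Fin d → k,
          t = fun q => if (q.1 : ℕ) = 0 ∧ (q.2 : ℕ) = 0 then 1 else 0 := ⟨_, rfl⟩
      have e1 : (mapRingHom (MvPolynomial.eval t)) RA = resultant f (1 : k[X][X]) d (d - 1) := by
        rw [hRA, res_map]
        congr 1
        · rw [Polynomial.map_map, mapRingHom_comp]
          conv_rhs => rw [← Polynomial.map_id (p := f)]
          congr 1
          rw [show (MvPolynomial.eval t).comp MvPolynomial.C = RingHom.id k from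
            RingHom.ext fun x => by simp, mapRingHom_id]
        · rw [GG_map]
          unfold GG
          rw [Finset.sum_eq_single ((⟨0, by omega⟩ : Fin (D + 1)), (⟨0, by omega⟩ : Fin d))]
          · simp [ht]
          · intro q _ hq
            have : t q = 0 := by
              rw [ht]
              refine if_neg ?_
              rintro ⟨a1, a2⟩
              apply hq
              ext
              · exact a1
              · exact a2
            simp only [MvPolynomial.eval_X, this, map_zero]
          · intro h
            exact absurd (Finset.mem_univ _) h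
      rw [h0, map_zero, resultant_one_right] at e1
      have e2 : f.coeff d ≠ 0 := by
        rw [← hd]
        have : f ≠ 0 := by
          rintro rfl
          simp at hd
          omega
        exact leadingCoeff_ne_zero.2 this
      exact pow_ne_zero _ e2 e1.symm
    have hmap : (mapRingHom ((MvPolynomial.aeval g : MvPolynomial _ k →ₐ[k] Ω) :
        MvPolynomial (Fin (D + 1) × Fin d) k →+* Ω)) RA = R := by
      rw [hRA, hR, res_map]
      congr 1
      · rw [Polynomial.map_map, mapRingHom_comp, hfO]
        congr 2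
        exact RingHom.ext fun x => by simp
      · rw [GG_map]
        congr 1
        funext q
        simp
    obtain ⟨n, hn⟩ : ∃ n, RA.coeff n ≠ 0 := by
      by_contra hc
      push Not at hc
      exact hRA0 (Polynomial.ext fun n => by rw [hc n, coeff_zero])
    have h5 := hg d (RA.coeff n) (hom n) hn
    intro h0
    apply h5
    have h6 := congrArg (fun r => r.coeff n) hmap
    simp only [coe_mapRingHom, coeff_map, h0, coeff_zero] at h6
    exact h6
  refine (Set.encard_le_encard (t := (R.roots.toFinset : Set Ω)) ?_).trans ?_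
  · rintro x₀ ⟨y₀, h1, h2⟩
    simp only [Finset.mem_coe, Multiset.mem_toFinset, mem_roots', ne_eq, IsRoot.def]
    exact ⟨hne, hroot x₀ y₀ h1 h2⟩
  · rw [Set.encard_coe_eq_coe_finsetCard]
    exact_mod_cast (Multiset.toFinset_card_le _).trans ((card_roots' R).trans hdeg)

end Pool.Agent.Y434.OD.Res

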